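import Pool.Agent.N20.EW.Stm4
import Pool.Agent.Y624.NV.Trn

/-!
# Project EK: from a normal subgroup to an automorphism (helper2)
-/

set_option autoImplicit false
set_option linter.unusedSectionVars false
set_option linter.unusedTactic false
set_option linter.dupNamespace false

open scoped Classical BigOperators

noncomputable section

namespace Pool.Agent.N2.EK.AUTK

open Pool.Agent.Y63.NV
open Pool.Agent.Y63.KR
open Pool.Agent.Y63.AWC (IsIrreducibleCharacter)
open Pool.Agent.R674.Tw (Fixes GCh NG ng_le)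
open Pool.Agent.N20.EW

/-! ### transfer along isomorphisms -/

theorem irr_iff {M N : Type} [Group M] [Group N] (e : M ≃* N) (ψ : N → ℂ) :
    IsIrreducibleCharacter ψ ↔ IsIrreducibleCharacter (fun x => ψ (e x)) := by
  refine ⟨fun h => Pool.Agent.Y624.NV.irr_comp e h, fun h => ?_⟩
  have h1 := Pool.Agent.Y624.NV.irr_comp e.symm h
  have h2 : (fun x => ψ (e (e.symm x))) = ψ := by
    funext x
    rw [e.apply_symm_apply]
  rw [h2] at h1
  exact h1

theorem wt_iff {p : ℕ} {M N : Type} [Group M] [Group N] (e : M ≃* N) (ψ : N → ℂ) :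
    IsWt p (⊥ : Subgroup N) ψ ↔ IsWt p (⊥ : Subgroup M) (fun x => ψ (e x)) := by
  constructor
  · intro h
    refine Pool.Agent.Y624.NV.isWt_comp e (fun x => ?_) h
    rw [Subgroup.mem_bot, Subgroup.mem_bot, MulEquiv.map_eq_one_iff]
  · intro h
    have h1 := Pool.Agent.Y624.NV.isWt_comp (p := p) (Q := (⊥ : Subgroup N)) e.symm (fun x => by
      rw [Subgroup.mem_bot, Subgroup.mem_bot, MulEquiv.map_eq_one_iff]) h
    have h2 : (fun x => ψ (e (e.symm x))) = ψ := by
      funext x
      rw [e.apply_symm_apply]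
    rw [h2] at h1
    exact h1

theorem cardT {F : Type} [Field F] (red : integralClosure ℤ ℂ →+* F) {M N : Type} [Group M]
    [Group N] (e : M ≃* N) (f : N → F) (hf : IsClassFun f) (c : F) (B A : (N → ℂ) → Prop)
    (B' A' : (M → ℂ) → Prop) (hB : ∀ ψ, B ψ → IsIrreducibleCharacter ψ)
    (hBB : ∀ ψ, B ψ ↔ B' (fun x => ψ (e x))) (hAA : ∀ ψ, A ψ ↔ A' (fun x => ψ (e x))) :
    Nat.card {ψ : N → ℂ // B ψ ∧ centralValue red ψ f = c ∧ A ψ} =
    Nat.card {ψ : M → ℂ // B' ψ ∧ centralValue red ψ (fun x => f (e x)) = c ∧ A' ψ} := by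
  refine Nat.card_congr ((Equiv.arrowCongr e.symm.toEquiv (Equiv.refl ℂ)).subtypeEquiv
    fun ψ => ?_)
  have h0 : (Equiv.arrowCongr e.symm.toEquiv (Equiv.refl ℂ)) ψ = fun x => ψ (e x) := rfl
  rw [h0, ← hBB, ← hAA]
  refine and_congr_right fun h => ?_
  rw [Pool.Agent.Y624.NV.centralValue_comp red e (hB ψ h) hf]

/-! ### chains -/

section chains

variable {G E : Type} [Group G] [Group E] (i : G →* E) (hi : Function.Injective i)

theorem conj_map (x : G) (P : Subgroup G) : conjSub (i x) (P.map i) = (conjSub x P).map i := by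
  unfold conjSub
  rw [Subgroup.map_map, Subgroup.map_map]
  congr 1
  ext y
  show i x * i y * (i x)⁻¹ = i (x * y * x⁻¹)
  rw [map_mul, map_mul, map_inv]

theorem conj_map_t {t : E} {α : MulAut G} (ht : ∀ x, t * i x * t⁻¹ = i (α x)) (g : G)
    (P : Subgroup G) : conjSub (i g * t) (P.map i) = (conjSub g (P.map α.toMonoidHom)).map i := by
  rw [← conj_map, conjSub_mul]
  congr 1
  unfold conjSub
  rw [Subgroup.map_map, Subgroup.map_map]
  congr 1
  ext y
  exact ht y

include hi in
theorem stab_map (σ : Set (Subgroup G)) :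
    (chainStabilizer σ).map i = NG i.range ((fun P : Subgroup G => P.map i) '' σ) := by
  ext x
  unfold NG
  rw [Subgroup.mem_inf, mem_chainStabilizer, Subgroup.mem_map]
  constructor
  · rintro ⟨y, hy, rfl⟩
    refine ⟨⟨y, rfl⟩, ?_⟩
    rintro _ ⟨P, hP, rfl⟩
    show conjSub (i y) (P.map i) = P.map i
    rw [conj_map, mem_chainStabilizer.mp hy P hP]
  · rintro ⟨⟨y, rfl⟩, h⟩
    refine ⟨y, ?_, rfl⟩
    rw [mem_chainStabilizer]
    intro P hP
    have h1 : conjSub (i y) (P.map i) = P.map i := h _ ⟨P, hP, rfl⟩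
    rw [conj_map] at h1
    exact Subgroup.map_injective hi h1

/-- the isomorphism of the stabilisers -/
def eqv (σ : Set (Subgroup G)) : chainStabilizer σ ≃*
    NG i.range ((fun P : Subgroup G => P.map i) '' σ) :=
  ((chainStabilizer σ).equivMapOfInjective i hi).trans (MulEquiv.subgroupCongr (stab_map i hi σ))

theorem eqv_coe (σ : Set (Subgroup G)) (x : chainStabilizer σ) : (eqv i hi σ x : E) = i x := rfl

/-- the bijection of the chains -/
def chm (p : ℕ) (σ : {σ : Set (Subgroup G) // IsPChain p σ}) : GCh p i.range :=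
  ⟨(fun P : Subgroup G => P.map i) '' σ.1, {
    chain := by
      rintro _ ⟨P, hP, rfl⟩ _ ⟨Q, hQ, rfl⟩ _
      rcases σ.2.chain.total hP hQ with h | h
      · exact Or.inl (Subgroup.map_mono h)
      · exact Or.inr (Subgroup.map_mono h)
    isPGroup := by
      rintro _ ⟨P, hP, rfl⟩
      exact (σ.2.isPGroup P hP).map _
    ne_bot := by
      rintro _ ⟨P, hP, rfl⟩ h
      exact σ.2.ne_bot P hP ((Subgroup.map_eq_bot_iff_of_injective P hi).1 h) }, by
      rintro _ ⟨P, hP, rfl⟩
      exact Subgroup.map_le_range i P⟩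

theorem chm_bij (p : ℕ) : Function.Bijective (chm i hi p) := by
  have hinj : Function.Injective (fun P : Subgroup G => P.map i) := Subgroup.map_injective hi
  have hle : ∀ P Q : Subgroup G, P.map i ≤ Q.map i ↔ P ≤ Q := fun P Q =>
    Subgroup.map_le_map_iff_of_injective hi
  constructor
  · intro σ τ h
    exact Subtype.ext (hinj.image_injective (congrArg Subtype.val h))
  · rintro ⟨τ, h1, h2⟩
    have h3 : ∀ P ∈ τ, (P.comap i).map i = P := fun P hP => Subgroup.map_comap_eq_self (h2 P hP)
    refine ⟨⟨(fun P : Subgroup E => P.comap i) '' τ, ⟨?_, ?_, ?_⟩⟩, ?_⟩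
    · rintro _ ⟨P, hP, rfl⟩ _ ⟨Q, hQ, rfl⟩ _
      rcases h1.chain.total hP hQ with h | h
      · exact Or.inl (Subgroup.comap_mono h)
      · exact Or.inr (Subgroup.comap_mono h)
    · rintro _ ⟨P, hP, rfl⟩
      exact (h1.isPGroup P hP).comap_of_injective i hi
    · rintro _ ⟨P, hP, rfl⟩ h
      apply h1.ne_bot P hP
      rw [← h3 P hP]
      change (P.comap i).map i = ⊥
      rw [show P.comap i = ⊥ from h, Subgroup.map_bot]
    · apply Subtype.ext
      change (fun P : Subgroup G => P.map i) '' ((fun P : Subgroup E => P.comap i) '' τ) = τ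
      rw [← Set.image_comp]
      ext P
      constructor
      · rintro ⟨Q, hQ, rfl⟩
        change (Q.comap i).map i ∈ τ
        rw [h3 Q hQ]
        exact hQ
      · intro hP
        exact ⟨P, hP, h3 P hP⟩

end chains

/-! ### the extension of the class function -/

section ext

variable {F : Type} [Field F] {G E : Type} [Group G] [Group E] (i : G →* E)

/-- the extension by zero -/
def ze (z : G → F) (y : E) : F := if h : ∃ x, i x = y then z h.choose else 0

theorem ze_i (hi : Function.Injective i) (z : G → F) (x : G) : ze i z (i x) = z x := by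
  have h : ∃ x', i x' = i x := ⟨x, rfl⟩
  unfold ze
  rw [dif_pos h]
  exact congrArg z (hi h.choose_spec)

theorem ze_out (z : G → F) {y : E} (h : y ∉ i.range) : ze i z y = 0 := by
  unfold ze
  rw [dif_neg]
  exact h

theorem z_zpow {α : MulAut G} {z : G → F} (h : ∀ x, z (α x) = z x) (n : ℤ) (x : G) :
    z ((α ^ n) x) = z x := by
  have h1 : ∀ (m : ℕ) (x : G), z ((α ^ m) x) = z x := by
    intro m
    induction m with
    | zero =>
      intro x
      rw [pow_zero]
      rfl
    | succ m ih =>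
      intro x
      rw [pow_succ]
      show z ((α ^ m) (α x)) = z x
      rw [ih, h]
  obtain ⟨m, rfl | rfl⟩ := n.eq_nat_or_neg
  · rw [zpow_natCast]
    exact h1 m x
  · rw [zpow_neg, zpow_natCast]
    have h2 := h1 m ((α ^ m)⁻¹ x)
    rw [MulAut.apply_inv_self] at h2
    exact h2.symm

theorem conj_zpow {t : E} {α : MulAut G} (ht : ∀ x, t * i x * t⁻¹ = i (α x)) (n : ℤ) (x : G) :
    t ^ n * i x * (t ^ n)⁻¹ = i ((α ^ n) x) := by
  have h1 : ∀ (m : ℕ) (x : G), t ^ m * i x * (t ^ m)⁻¹ = i ((α ^ m) x) := by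
    intro m
    induction m with
    | zero =>
      intro x
      rw [pow_zero, pow_zero, one_mul, inv_one, mul_one]
      rfl
    | succ m ih =>
      intro x
      have e : t ^ (m + 1) * i x * (t ^ (m + 1))⁻¹ = t ^ m * (t * i x * t⁻¹) * (t ^ m)⁻¹ := by
        rw [pow_succ]
        group
      rw [e, ht, ih, pow_succ]
      rfl
  obtain ⟨m, rfl | rfl⟩ := n.eq_nat_or_neg
  · rw [zpow_natCast, zpow_natCast]
    exact h1 m x
  · rw [zpow_neg, zpow_neg, zpow_natCast, zpow_natCast, inv_inv]
    have h2 := h1 m ((α ^ m)⁻¹ x)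
    rw [MulAut.apply_inv_self] at h2
    rw [← h2]
    group

theorem ze_class (hi : Function.Injective i) [i.range.Normal] {t : E} {α : MulAut G}
    (ht : ∀ x, t * i x * t⁻¹ = i (α x)) (hcyc : ∀ k : E, ∃ n : ℤ, ∃ g : G, k = t ^ n * i g)
    {z : G → F} (hz : IsClassFun z) (hα : ∀ x, z (α x) = z x) : IsClassFun (ze i z) := by
  intro k y
  by_cases hy : y ∈ i.range
  · obtain ⟨x, rfl⟩ := hy
    obtain ⟨n, g, rfl⟩ := hcyc k
    have h1 : t ^ n * i g * i x * (t ^ n * i g)⁻¹ = i ((α ^ n) (g * x * g⁻¹)) := by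
      rw [← conj_zpow i ht, map_mul, map_mul, map_inv]
      group
    rw [h1, ze_i i hi, ze_i i hi, z_zpow hα, hz]
  · rw [ze_out i z hy, ze_out i z]
    intro h
    apply hy
    have h1 := Subgroup.Normal.conj_mem (H := i.range) inferInstance _ h k⁻¹
    have h2 : k⁻¹ * (k * y * k⁻¹) * k⁻¹⁻¹ = y := by group
    rwa [h2] at h1

end ext

/-! ### the general statement -/

theorem abs_main (h : S_EQK) (p : ℕ) [Fact p.Prime] (F : Type) [Field F] [IsAlgClosed F]
    [CharP F p] (red : integralClosure ℤ ℂ →+* F) (G : Type) [Group G] [Finite G] (α : MulAut G)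
    (z : G → F) (hz : IsClassFun z) (hα : ∀ x, z (α x) = z x) (c : F)
    (hQ : ∀ (Q : Type) [Group Q] [Finite Q] (zQ : Q → F), IsClassFun zQ → (z = 0 → zQ = 0) →
      KRz p red Q zQ c)
    (E : Type) [Group E] [Finite E] (i : G →* E) (hi : Function.Injective i) [i.range.Normal]
    (t : E) (ht : ∀ x, t * i x * t⁻¹ = i (α x))
    (hcyc : ∀ k : E, ∃ n : ℤ, ∃ g : G, k = t ^ n * i g) :
    ∑ᶠ σ : {σ : Set (Subgroup G) // IsPChain p σ}, (-1 : ℤ) ^ σ.1.ncard *
      ((Nat.card (chainStabilizer σ.1) : ℤ) *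
        Nat.card {ψ : chainStabilizer σ.1 → ℂ // IsIrreducibleCharacter ψ ∧
          centralValue red ψ (fun x => z x) = c ∧ FixC α σ.1 ψ}) =
    (Nat.card G : ℤ) * Nat.card {ψ : G → ℂ // IsWt p (⊥ : Subgroup G) ψ ∧
      centralValue red ψ z = c ∧ ∀ x, ψ (α x) = ψ x} := by
  have hzc := ze_class i hi ht hcyc hz hα
  have key := h p F red E i.range t (fun k => by
    obtain ⟨n, g, hk⟩ := hcyc k
    exact ⟨n, i g, ⟨g, rfl⟩, hk⟩) (ze i z) hzc (fun x hx => ze_out i z hx) c
    (fun Q _ _ zQ hzQ h0 => hQ Q zQ hzQ fun hz0 => h0 (by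
      funext y
      show ze i z y = 0
      by_cases hy : y ∈ i.range
      · obtain ⟨x, rfl⟩ := hy
        rw [ze_i i hi, hz0]
        rfl
      · exact ze_out i z hy))
  have e1 : Nat.card i.range = Nat.card G := (Nat.card_congr (MonoidHom.ofInjective hi).toEquiv).symm
  have e2 : Nat.card {ψ : i.range → ℂ // IsWt p (⊥ : Subgroup i.range) ψ ∧
      centralValue red ψ (fun x => ze i z x) = c ∧ Fixes t ψ} =
      Nat.card {ψ : G → ℂ // IsWt p (⊥ : Subgroup G) ψ ∧
        centralValue red ψ z = c ∧ ∀ x, ψ (α x) = ψ x} := by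
    have h1 := cardT red (MonoidHom.ofInjective hi) (fun x : i.range => ze i z x)
      (fun g x => hzc g x) c (fun ψ => IsWt p (⊥ : Subgroup i.range) ψ) (fun ψ => Fixes t ψ)
      (fun ψ => IsWt p (⊥ : Subgroup G) ψ) (fun ψ => ∀ x, ψ (α x) = ψ x)
      (fun ψ hψ => hψ.irr) (fun ψ => wt_iff _ ψ) (by
        intro ψ
        constructor
        · intro h1 x
          refine h1 _ _ ?_
          show i (α x) = t * i x * t⁻¹
          exact (ht x).symm
        · intro h1 n n' hn
          obtain ⟨x, rfl⟩ := (MonoidHom.ofInjective hi).surjective n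
          obtain ⟨y, rfl⟩ := (MonoidHom.ofInjective hi).surjective n'
          have h2 : i y = i (α x) := by
            rw [← ht]
            exact hn
          rw [hi h2]
          exact h1 x)
    rw [h1]
    have h2 : (fun x : G => ze i z ((MonoidHom.ofInjective hi) x)) = z := by
      funext x
      exact ze_i i hi z x
    rw [h2]
  rw [e1, e2] at key
  rw [← key]
  refine finsum_eq_of_bijective (chm i hi p) (chm_bij i hi p) ?_
  intro σ
  have hinj : Function.Injective (fun P : Subgroup G => P.map i) := Subgroup.map_injective hi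
  have e3 : (chm i hi p σ).1 = (fun P : Subgroup G => P.map i) '' σ.1 := rfl
  rw [e3, Set.ncard_image_of_injective _ hinj]
  have e4 : Nat.card (NG i.range ((fun P : Subgroup G => P.map i) '' σ.1)) =
      Nat.card (chainStabilizer σ.1) := (Nat.card_congr (eqv i hi σ.1).toEquiv).symm
  rw [e4]
  have e5 := cardT red (eqv i hi σ.1)
    (fun x : NG i.range ((fun P : Subgroup G => P.map i) '' σ.1) => ze i z x)
    (fun g x => hzc g x) c (fun ψ => IsIrreducibleCharacter ψ)
    (fun ψ => ∃ g ∈ i.range, g * t ∈ chainStabilizer ((fun P : Subgroup G => P.map i) '' σ.1) ∧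
      Fixes (g * t) ψ)
    (fun ψ => IsIrreducibleCharacter ψ) (fun ψ => FixC α σ.1 ψ)
    (fun ψ hψ => hψ) (fun ψ => irr_iff _ ψ) (by
      intro ψ
      have hc : ∀ g x y : G, i y = i g * t * i x * (i g * t)⁻¹ ↔ y = g * α x * g⁻¹ := by
        intro g x y
        have e : i g * t * i x * (i g * t)⁻¹ = i (g * α x * g⁻¹) := by
          rw [map_mul, map_mul, map_inv, ← ht]
          group
        rw [e]
        exact hi.eq_iff
      have hs : ∀ g : G, i g * t ∈ chainStabilizer ((fun P : Subgroup G => P.map i) '' σ.1) ↔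
          ∀ P ∈ σ.1, conjSub g (P.map α.toMonoidHom) = P := by
        intro g
        rw [mem_chainStabilizer]
        constructor
        · intro h1 P hP
          have h2 : conjSub (i g * t) (P.map i) = P.map i := h1 _ ⟨P, hP, rfl⟩
          rw [conj_map_t i ht] at h2
          exact Subgroup.map_injective hi h2
        · rintro h1 _ ⟨P, hP, rfl⟩
          show conjSub (i g * t) (P.map i) = P.map i
          rw [conj_map_t i ht, h1 P hP]
      have hF : ∀ g : G, Fixes (i g * t) ψ ↔ ∀ x y : chainStabilizer σ.1,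
          (y : G) = g * α x * g⁻¹ → ψ (eqv i hi σ.1 y) = ψ (eqv i hi σ.1 x) := by
        intro g
        constructor
        · intro h1 x y hxy
          refine h1 _ _ ?_
          rw [eqv_coe, eqv_coe]
          exact (hc g x y).2 hxy
        · intro h1 n n' hn
          obtain ⟨x, rfl⟩ := (eqv i hi σ.1).surjective n
          obtain ⟨y, rfl⟩ := (eqv i hi σ.1).surjective n'
          rw [eqv_coe, eqv_coe] at hn
          exact h1 x y ((hc g x y).1 hn)
      constructor
      · rintro ⟨_, ⟨g, rfl⟩, h1, h2⟩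
        exact ⟨g, (hs g).1 h1, (hF g).1 h2⟩
      · rintro ⟨g, h1, h2⟩
        exact ⟨i g, ⟨g, rfl⟩, (hs g).2 h1, (hF g).2 h2⟩)
  rw [e5]
  have e6 : (fun x : chainStabilizer σ.1 => ze i z (eqv i hi σ.1 x : E)) =
      fun x : chainStabilizer σ.1 => z x := by
    funext x
    rw [eqv_coe]
    exact ze_i i hi z x
  rw [e6]

/-- AUTK -/
theorem AUTK (h : S_EQK) : S_AUTK := by
  intro p _ F _ _ _ red G _ _ α z hz hα c hQ
  have hfin : Finite (MulAut G) :=
    Finite.of_injective (fun f : MulAut G => (f : G → G)) DFunLike.coe_injective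
  have hE : Finite (SemidirectProduct G (Subgroup.zpowers α) (Subgroup.zpowers α).subtype) :=
    Finite.of_equiv _ SemidirectProduct.equivProd.symm
  have hn : (SemidirectProduct.inl : G →*
      SemidirectProduct G (Subgroup.zpowers α) (Subgroup.zpowers α).subtype).range.Normal := by
    rw [SemidirectProduct.range_inl_eq_ker_rightHom]
    infer_instance
  have hi : Function.Injective (SemidirectProduct.inl : G →*
      SemidirectProduct G (Subgroup.zpowers α) (Subgroup.zpowers α).subtype) :=
    SemidirectProduct.inl_injective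
  obtain ⟨t, htd⟩ : ∃ t : SemidirectProduct G (Subgroup.zpowers α) (Subgroup.zpowers α).subtype,
    t = SemidirectProduct.inr ⟨α, Subgroup.mem_zpowers α⟩ := ⟨_, rfl⟩
  have ht : ∀ x : G, t * SemidirectProduct.inl x * t⁻¹ = SemidirectProduct.inl (α x) := by
    intro x
    rw [htd, ← map_inv, ← SemidirectProduct.inl_aut]
    rfl
  have hcyc : ∀ k : SemidirectProduct G (Subgroup.zpowers α) (Subgroup.zpowers α).subtype,
      ∃ n : ℤ, ∃ g : G, k = t ^ n * SemidirectProduct.inl g := by
    intro k
    obtain ⟨n, hn⟩ := Subgroup.mem_zpowers_iff.1 k.right.2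
    refine ⟨n, (α ^ n)⁻¹ k.left, ?_⟩
    have h1 : t ^ n = SemidirectProduct.inr k.right := by
      rw [htd, ← map_zpow]
      congr 1
      exact Subtype.ext hn
    have h2 := conj_zpow (SemidirectProduct.inl : G →*
      SemidirectProduct G (Subgroup.zpowers α) (Subgroup.zpowers α).subtype) ht n
      ((α ^ n)⁻¹ k.left)
    rw [MulAut.apply_inv_self] at h2
    have h3 : t ^ n * SemidirectProduct.inl ((α ^ n)⁻¹ k.left) =
        SemidirectProduct.inl k.left * t ^ n := by
      rw [← h2]
      group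
    rw [h3, h1, SemidirectProduct.inl_left_mul_inr_right]
  exact abs_main h p F red G α z hz hα c hQ _ SemidirectProduct.inl hi t ht hcyc

end Pool.Agent.N2.EK.AUTK
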